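import Pool.Agent.helper19.MX.SpecA

/-!
# Row mx:PS2 (MP_a875de_ag): orthogonality
-/

set_option autoImplicit false

namespace MX

open Pool.Agent.helper53.AU AN
open scoped Classical Topology

/-- PS2. -/
theorem PS2 (hPS1 : PS1_stmt) : PS2_stmt := by
  intro K _ _ _
  obtain ⟨_, h2, _, _, _, w, hw⟩ := hPS1 K
  have h0 : ∑ z : K, ps z = 0 := by
    have h3 : ∑ z : K, ps (z + w) = ∑ z : K, ps z :=
      Fintype.sum_equiv (Equiv.addRight w) _ _ (fun z => rfl)
    have h4 : ∑ z : K, ps (z + w) = - ∑ z : K, ps z := by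
      rw [← Finset.sum_neg_distrib]
      refine Finset.sum_congr rfl fun z _ => ?_
      rw [h2, hw]
      ring
    rw [h3] at h4
    linarith
  constructor
  · intro c hc
    rw [← h0]
    exact Fintype.sum_equiv (Equiv.mulLeft₀ c hc) _ _ (fun z => rfl)
  · intro c hc
    by_contra hne
    have h3 := hc (c⁻¹ * w)
    rw [mul_inv_cancel_left₀ hne, hw] at h3
    norm_num at h3

end MX
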